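import Pool.Agent.H21.CST.S1

/-!
# CST, row VOL: the number of exponents that are removed
-/

set_option autoImplicit false

namespace Pool.CST

open MvPolynomial

theorem vol_irr : ∀ (δ : ℕ) (a : Fin (δ + 1) → ℕ), ¬ Bef δ a a
  | 0, a, h => lt_irrefl _ h
  | δ + 1, a, h => by
    rcases h with h | ⟨-, h⟩
    · exact lt_irrefl _ h
    · exact vol_irr δ _ h

theorem vol_trans : ∀ (δ : ℕ) (a b c : Fin (δ + 1) → ℕ), Bef δ a b → Bef δ b c → Bef δ a c
  | 0, a, b, c, h1, h2 => by
    simp only [Bef] at *
    omega
  | δ + 1, a, b, c, h1, h2 => by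
    simp only [Bef] at *
    rcases h1 with h1 | ⟨e1, h1⟩ <;> rcases h2 with h2 | ⟨e2, h2⟩
    · left; omega
    · left; omega
    · left; omega
    · right; exact ⟨by omega, vol_trans δ _ _ _ h1 h2⟩

theorem vol_tot : ∀ (δ : ℕ) (a b : Fin (δ + 1) → ℕ), a = b ∨ Bef δ a b ∨ Bef δ b a
  | 0, a, b => by
    rcases lt_trichotomy (a 0) (b 0) with h | h | h
    · right; right; exact h
    · left
      funext i
      have hi : i = 0 := Fin.eq_zero i
      rw [hi, h]
    · right; left; exact h
  | δ + 1, a, b => by
    rcases lt_trichotomy (a 0) (b 0) with h | h | h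
    · right; left; left; exact h
    · rcases vol_tot δ (Fin.tail a) (Fin.tail b) with h' | h' | h'
      · left
        rw [← Fin.cons_self_tail a, ← Fin.cons_self_tail b, h, h']
      · right; left; right; exact ⟨h, h'⟩
      · right; right; right; exact ⟨h.symm, h'⟩
    · right; right; left; exact h

/-- A nonempty finite set has a first element. -/
theorem vol_min (δ : ℕ) (S : Finset (Fin (δ + 1) → ℕ)) (h : S.Nonempty) :
    ∃ a ∈ S, ∀ b ∈ S, ¬ Bef δ b a := by
  classical
  induction S using Finset.induction_on with
  | empty => exact absurd h (by simp)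
  | insert x S hx ih =>
    rcases S.eq_empty_or_nonempty with rfl | hS
    · exact ⟨x, by simp, fun b hb => by
        rw [Finset.mem_insert] at hb
        rcases hb with rfl | hb
        · exact vol_irr _ _
        · exact absurd hb (by simp)⟩
    · obtain ⟨a, ha, hm⟩ := ih hS
      by_cases hxa : Bef δ x a
      · refine ⟨x, by simp, fun b hb hbx => ?_⟩
        rw [Finset.mem_insert] at hb
        rcases hb with rfl | hb
        · exact vol_irr _ _ hbx
        · exact hm b hb (vol_trans δ _ _ _ hbx hxa)
      · refine ⟨a, by simp [ha], fun b hb hba => ?_⟩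
        rw [Finset.mem_insert] at hb
        rcases hb with rfl | hb
        · exact hxa hba
        · exact hm b hb hba

theorem vol_mem_Sx {δ E : ℕ} {a : Fin δ → ℕ} : a ∈ Sx δ E ↔ ∑ i, a i < E := by
  unfold Sx
  rw [Finset.mem_filter]
  constructor
  · exact fun h => h.2
  · intro h
    refine ⟨?_, h⟩
    rw [Fintype.mem_piFinset]
    intro i
    rw [Finset.mem_range]
    exact lt_of_le_of_lt (Finset.single_le_sum (f := a) (fun _ _ => Nat.zero_le _)
      (Finset.mem_univ i)) h

/-- The dimension of the space of polynomials of degree at most `m`. -/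
theorem vol_finrank (δ m : ℕ) :
    Module.finrank ℂ (restrictTotalDegree (Fin δ) ℂ m) = (Sx δ (m + 1)).card := by
  have hb := Module.finrank_eq_nat_card_basis
    (basisRestrictSupport ℂ {n : Fin δ →₀ ℕ | (n.sum fun _ e => e) ≤ m})
  have h1 : Module.finrank ℂ (restrictTotalDegree (Fin δ) ℂ m) =
      Nat.card {n : Fin δ →₀ ℕ | (n.sum fun _ e => e) ≤ m} := hb
  rw [h1]
  have e : {n : Fin δ →₀ ℕ | (n.sum fun _ e => e) ≤ m} ≃ (Sx δ (m + 1)) :=
    { toFun := fun n => ⟨fun i => n.1 i, by
        rw [vol_mem_Sx]
        have := n.2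
        simp only [Set.mem_ofPred_eq] at this
        rw [Finsupp.sum_fintype _ _ (fun _ => rfl)] at this
        omega⟩
      invFun := fun a => ⟨Finsupp.equivFunOnFinite.symm a.1, by
        have := vol_mem_Sx.1 a.2
        simp only [Set.mem_ofPred_eq]
        rw [Finsupp.sum_fintype _ _ (fun _ => rfl)]
        simp only [Finsupp.equivFunOnFinite_symm_apply_apply]
        omega⟩
      left_inv := fun n => by
        apply Subtype.ext
        ext i
        simp
      right_inv := fun a => by
        apply Subtype.ext
        funext i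
        simp }
  rw [Nat.card_congr e]
  simp

theorem vol_le (δ m : ℕ) (Z : Finset (Fin (δ + 1) → ℕ)) :
    (Z \ st δ (m + 1) Z).card ≤ (Sx (δ + 1) (m + 1)).card := by
  classical
  have hq : ∀ u : (Z \ st δ (m + 1) Z : Finset (Fin (δ + 1) → ℕ)),
      ∃ q : MvPolynomial (Fin (δ + 1)) ℂ, q.totalDegree < m + 1 ∧
        (∀ a ∈ Z, Bef δ a u.1 → ev a q = 0) ∧ ev u.1 q ≠ 0 := by
    intro u
    have hu := Finset.mem_sdiff.1 u.2
    have h2 := hu.2
    unfold st at h2
    rw [Finset.mem_filter] at h2
    push Not at h2
    exact h2 hu.1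
  choose q hd hv hn using hq
  have hli : LinearIndependent ℂ (fun u : (Z \ st δ (m + 1) Z : Finset (Fin (δ + 1) → ℕ)) =>
      (⟨q u, by
        rw [mem_restrictTotalDegree]
        have := hd u
        omega⟩ : restrictTotalDegree (Fin (δ + 1)) ℂ m)) := by
    rw [Fintype.linearIndependent_iff]
    intro g hg
    by_contra hcon
    push Not at hcon
    obtain ⟨i0, hi0⟩ := hcon
    -- the first element with a nonzero coefficient
    let T : Finset (Fin (δ + 1) → ℕ) :=
      (Finset.univ.filter fun u => g u ≠ 0).image Subtype.val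
    have hT : T.Nonempty := ⟨i0.1, Finset.mem_image.2 ⟨i0, by simp [hi0], rfl⟩⟩
    obtain ⟨a, ha, hmin⟩ := vol_min δ T hT
    obtain ⟨u, hu, rfl⟩ := Finset.mem_image.1 ha
    have hgu : g u ≠ 0 := by simpa using hu
    have h0 : ∑ v, g v * ev u.1 (q v) = 0 := by
      have := congrArg (fun p : restrictTotalDegree (Fin (δ + 1)) ℂ m =>
        ev u.1 (p : MvPolynomial (Fin (δ + 1)) ℂ)) hg
      simp only [Submodule.coe_zero, Submodule.coe_sum, Submodule.coe_smul, ev, map_sum,
        map_zero, smul_eval] at this
      exact this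
    rw [Finset.sum_eq_single u] at h0
    · rcases mul_eq_zero.1 h0 with h | h
      · exact hgu h
      · exact hn u h
    · intro v _ hvu
      by_cases hgv : g v = 0
      · rw [hgv, zero_mul]
      · have hvT : v.1 ∈ T := Finset.mem_image.2 ⟨v, by simp [hgv], rfl⟩
        have h1 := hmin v.1 hvT
        rcases vol_tot δ u.1 v.1 with h | h | h
        · exact absurd (Subtype.ext h.symm) hvu
        · rw [hv v u.1 (Finset.mem_sdiff.1 u.2).1 h, mul_zero]
        · exact absurd h h1
    · intro h
      exact absurd (Finset.mem_univ u) h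
  have := hli.fintype_card_le_finrank
  rw [vol_finrank] at this
  simpa using this

theorem t_vol : VOLStmt := by
  classical
  intro δ m Z
  rcases m with _ | m
  · have h1 : st δ 0 Z = Z := by
      unfold st
      rw [Finset.filter_true_of_mem]
      intro u _ q hq
      exact absurd hq (by omega)
    have h2 : Sx (δ + 1) 0 = ∅ := by
      ext a
      rw [vol_mem_Sx]
      simp
    rw [h1, h2]
    simp
  · refine ⟨vol_le δ m Z, fun hZ => le_antisymm (vol_le δ m Z) ?_⟩
    rw [← vol_finrank]
    -- the evaluation at the removed exponents is injective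
    let f : restrictTotalDegree (Fin (δ + 1)) ℂ m →ₗ[ℂ]
        ((Z \ st δ (m + 1) Z : Finset (Fin (δ + 1) → ℕ)) → ℂ) :=
      { toFun := fun p u => ev u.1 (p : MvPolynomial (Fin (δ + 1)) ℂ)
        map_add' := fun p p' => by
          funext u
          simp [ev]
        map_smul' := fun c p => by
          funext u
          simp [ev, smul_eval] }
    have hf : Function.Injective f := by
      rw [injective_iff_map_eq_zero]
      intro p hp
      have hpd : (p : MvPolynomial (Fin (δ + 1)) ℂ).totalDegree < m + 1 := by
        have := p.2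
        rw [mem_restrictTotalDegree] at this
        omega
      have hall : ∀ a ∈ Z, ev a (p : MvPolynomial (Fin (δ + 1)) ℂ) = 0 := by
        by_contra hcon
        push Not at hcon
        obtain ⟨a0, ha0, hne⟩ := hcon
        let T : Finset (Fin (δ + 1) → ℕ) :=
          Z.filter fun a => ev a (p : MvPolynomial (Fin (δ + 1)) ℂ) ≠ 0
        have hT : T.Nonempty := ⟨a0, Finset.mem_filter.2 ⟨ha0, hne⟩⟩
        obtain ⟨u, hu, hmin⟩ := vol_min δ T hT
        have hu' := Finset.mem_filter.1 hu
        have hun : u ∉ st δ (m + 1) Z := by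
          intro hus
          unfold st at hus
          rw [Finset.mem_filter] at hus
          refine hu'.2 (hus.2 _ hpd ?_)
          intro a ha hau
          by_contra hane
          exact hmin a (Finset.mem_filter.2 ⟨ha, hane⟩) hau
        have := congrFun hp ⟨u, Finset.mem_sdiff.2 ⟨hu'.1, hun⟩⟩
        exact hu'.2 this
      exact Subtype.ext (hZ _ hpd hall)
    have := LinearMap.finrank_le_finrank_of_injective hf
    simpa using this

end Pool.CST
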